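import Pool.Agent.TH914.LS.OE
import Pool.Agent.H306R2.SM.Defs
import Pool.Agent.W184.NZ.Size
import Pool.Agent.H262R4.TM.Defs

set_option autoImplicit false

/-!
# Hardy's function against a Gamma density, part 4: monomials
-/

namespace Pool.Agent.TH914.LS

open MeasureTheory Filter Topology Set Pool.Agent.Helper625
open Pool.Agent.H306R2.SM (om cl)
open Pool.Agent.H262R4.TM (Rng)
open Pool.Agent.W184.NZ (mh)

noncomputable section

lemma mh_eq {h l : ℕ} (hh : 1 ≤ h) (hl : 1 ≤ l) (t : ℝ) :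
    mh t (h, l) = ((Real.exp (-((Real.log h + Real.log l) / 2)) : ℝ) : ℂ) *
      ee (Real.log h - Real.log l) t := by
  have h0 : (h : ℂ) ≠ 0 := by
    have : h ≠ 0 := by omega
    exact_mod_cast this
  have l0 : (l : ℂ) ≠ 0 := by
    have : l ≠ 0 := by omega
    exact_mod_cast this
  have e : mh t (h, l) = (h : ℂ) ^ (-(1 / 2 + t * Complex.I)) * (l : ℂ) ^ (-(1 / 2 - t * Complex.I)) := rfl
  rw [e, Complex.cpow_def_of_ne_zero h0, Complex.cpow_def_of_ne_zero l0, ← Complex.exp_add]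
  unfold ee
  rw [← Complex.natCast_log, ← Complex.natCast_log, Complex.ofReal_exp, ← Complex.exp_add]
  congr 1
  push_cast
  ring

lemma fac_le {h l : ℕ} (hh : 1 ≤ h) (hl : 1 ≤ l) :
    Real.exp (-((Real.log h + Real.log l) / 2)) *
      (Real.exp ((Real.log h - Real.log l) / 2) + Real.exp (-((Real.log h - Real.log l) / 2))) ≤ 2 ∧
    Real.exp (-((Real.log h + Real.log l) / 2)) ≤ 1 := by
  have h1 : 0 ≤ Real.log h := Real.log_nonneg (by exact_mod_cast hh)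
  have l1 : 0 ≤ Real.log l := Real.log_nonneg (by exact_mod_cast hl)
  constructor
  · rw [mul_add, ← Real.exp_add, ← Real.exp_add]
    have e1 : -((Real.log h + Real.log l) / 2) + (Real.log h - Real.log l) / 2 = -Real.log l := by ring
    have e2 : -((Real.log h + Real.log l) / 2) + -((Real.log h - Real.log l) / 2) = -Real.log h := by ring
    rw [e1, e2]
    have a1 : Real.exp (-Real.log l) ≤ 1 := Real.exp_le_one_iff.2 (by linarith)
    have a2 : Real.exp (-Real.log h) ≤ 1 := Real.exp_le_one_iff.2 (by linarith)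
    linarith
  · exact Real.exp_le_one_iff.2 (by linarith)

lemma rng_ev : ∀ᶠ T : ℝ in atTop, ∀ κ : ℕ, Rng T κ → 5 ≤ κ ∧ ((κ : ℝ) + 1) ≤ T ^ (1 / 100 : ℝ) := by
  have h1 : ∀ᶠ T : ℝ in atTop, 4 * Real.log T ^ 2 + 1 ≤ T ^ (1 / 100 : ℝ) := by
    have h := (isLittleO_log_rpow_rpow_atTop (2:ℝ) (by norm_num : (0:ℝ) < 1 / 100)).bound
      (by norm_num : (0:ℝ) < 1 / 5)
    filter_upwards [h, eventually_ge_atTop (Real.exp 1)] with T hT hTe
    have hT0 : 0 < T := lt_of_lt_of_le (Real.exp_pos 1) hTe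
    have hl : 1 ≤ Real.log T := (Real.le_log_iff_exp_le hT0).2 hTe
    rw [Real.norm_of_nonneg (by positivity), Real.norm_of_nonneg (by positivity), Real.rpow_two] at hT
    nlinarith
  filter_upwards [h1, eventually_ge_atTop (Real.exp 3)] with T hT hTe κ hκ
  have hT0 : 0 < T := lt_of_lt_of_le (Real.exp_pos 3) hTe
  have hl : 3 ≤ Real.log T := (Real.le_log_iff_exp_le hT0).2 hTe
  constructor
  · have h2 := hκ.1
    have h3 : (9:ℝ) ≤ κ := by nlinarith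
    have h4 : (9:ℕ) ≤ κ := by exact_mod_cast h3
    omega
  · have h2 := hκ.2
    linarith

theorem osc_ev : ∀ᶠ T : ℝ in atTop, ∀ κ : ℕ, Rng T κ → ∀ h l : ℕ, 1 ≤ h → 1 ≤ l →
    ‖∫ t in Set.Ioi (0 : ℝ), ((om κ (κ / T) t : ℝ) : ℂ) * (((Zz t : ℝ) : ℂ) * mh t (h, l))‖ ≤
      T ^ (-(1 / 8) : ℝ) := by
  set A := C1 * Real.exp Real.pi * Real.exp 2 with hA
  have hA0 : 0 ≤ A := by
    have := C1_nonneg
    positivity
  have h1 : ∀ᶠ T : ℝ in atTop, 2008 + 2 * A ≤ T ^ (1 / 20 : ℝ) :=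
    (tendsto_rpow_atTop (by norm_num : (0:ℝ) < 1 / 20)).eventually_ge_atTop _
  filter_upwards [h1, rng_ev, eventually_ge_atTop (2:ℝ)] with T hT hr hT2 κ hκ h l hh hl
  obtain ⟨hk5, hkT⟩ := hr κ hκ
  have hT0 : 0 < T := by linarith
  have hT1 : 1 ≤ T := by linarith
  obtain ⟨k, rfl⟩ : ∃ k, κ = k + 2 := ⟨κ - 2, by omega⟩
  have hk3 : 3 ≤ k := by omega
  push_cast at hkT
  have hkT2 : (k : ℝ) + 3 ≤ T ^ (1 / 100 : ℝ) := by linarith
  have hkT3 : (k : ℝ) + 2 ≤ T := by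
    have : T ^ (1 / 100 : ℝ) ≤ T ^ (1 : ℝ) := Real.rpow_le_rpow_of_exponent_le hT1 (by norm_num)
    rw [Real.rpow_one] at this
    linarith
  set v := Real.log h - Real.log l with hv
  set m := Real.exp (-((Real.log h + Real.log l) / 2)) with hm
  have hm0 : 0 < m := Real.exp_pos _
  obtain ⟨hf1, hf2⟩ := fac_le hh hl
  rw [← hv, ← hm] at hf1
  rw [← hm] at hf2
  have hcore := core k hk3 hT2 hkT3 v
  have e1 : ∀ t : ℝ, ((om (k + 2) (((k + 2 : ℕ) : ℝ) / T) t : ℝ) : ℂ) *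
      (((Zz t : ℝ) : ℂ) * mh t (h, l)) = ((m : ℝ) : ℂ) * Fi (k + 2) (((k : ℝ) + 2) / T) v t := by
    intro t
    have e2 : om (k + 2) (((k + 2 : ℕ) : ℝ) / T) t = og (k + 2) (((k : ℝ) + 2) / T) t := by
      unfold om og
      push_cast
      rfl
    rw [mh_eq hh hl, ← hv, ← hm, e2]
    unfold Fi
    ring
  rw [integral_congr_ae (Eventually.of_forall e1), integral_const_mul, norm_mul, Complex.norm_real,
    Real.norm_of_nonneg hm0.le]
  have hk30 : (0:ℝ) ≤ (k : ℝ) + 3 := by positivity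
  have p2 : ((k : ℝ) + 3) ^ 2 ≤ T ^ (2 / 100 : ℝ) := by
    calc ((k : ℝ) + 3) ^ 2 ≤ (T ^ (1 / 100 : ℝ)) ^ 2 := by gcongr
      _ = T ^ (2 / 100 : ℝ) := by
          rw [← Real.rpow_natCast, ← Real.rpow_mul hT0.le]; norm_num
  have p6 : ((k : ℝ) + 3) ^ 6 ≤ T ^ (6 / 100 : ℝ) := by
    calc ((k : ℝ) + 3) ^ 6 ≤ (T ^ (1 / 100 : ℝ)) ^ 6 := by gcongr
      _ = T ^ (6 / 100 : ℝ) := by
          rw [← Real.rpow_natCast, ← Real.rpow_mul hT0.le]; norm_num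
  have b1 : m * (8 / T) ≤ 8 * T ^ (-(7 / 40) : ℝ) := by
    have : 1 / T ≤ T ^ (-(7 / 40) : ℝ) := by
      rw [one_div, ← Real.rpow_neg_one]
      exact Real.rpow_le_rpow_of_exponent_le hT1 (by norm_num)
    have h8 : 0 ≤ 8 / T := by positivity
    calc m * (8 / T) ≤ 1 * (8 / T) := by gcongr
      _ = 8 * (1 / T) := by ring
      _ ≤ _ := by gcongr
  have b2 : m * (A * ((k : ℝ) + 3) ^ 2 * (Real.exp (v / 2) + Real.exp (-(v / 2))) *
      T ^ (-(1 / 4) : ℝ)) ≤ 2 * A * T ^ (-(7 / 40) : ℝ) := by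
    calc m * (A * ((k : ℝ) + 3) ^ 2 * (Real.exp (v / 2) + Real.exp (-(v / 2))) *
        T ^ (-(1 / 4) : ℝ)) = A * ((k : ℝ) + 3) ^ 2 * (m * (Real.exp (v / 2) +
        Real.exp (-(v / 2)))) * T ^ (-(1 / 4) : ℝ) := by ring
      _ ≤ A * T ^ (2 / 100 : ℝ) * 2 * T ^ (-(1 / 4) : ℝ) := by gcongr
      _ = 2 * A * (T ^ (2 / 100 : ℝ) * T ^ (-(1 / 4) : ℝ)) := by ring
      _ ≤ 2 * A * T ^ (-(7 / 40) : ℝ) := by
          rw [← Real.rpow_add hT0]
          have := Real.rpow_le_rpow_of_exponent_le hT1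
            (show (2 / 100 + -(1 / 4) : ℝ) ≤ -(7 / 40) by norm_num)
          gcongr
  have b3 : m * (2000 * ((k : ℝ) + 3) ^ 6 / T ^ 2) ≤ 2000 * T ^ (-(7 / 40) : ℝ) := by
    have hT2' : 1 / T ^ 2 = T ^ (-2 : ℝ) := by
      rw [Real.rpow_neg hT0.le, Real.rpow_two, one_div]
    calc m * (2000 * ((k : ℝ) + 3) ^ 6 / T ^ 2) ≤ 1 * (2000 * T ^ (6 / 100 : ℝ) / T ^ 2) := by
          gcongr
      _ = 2000 * (T ^ (6 / 100 : ℝ) * (1 / T ^ 2)) := by ring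
      _ ≤ _ := by
          rw [hT2', ← Real.rpow_add hT0]
          have := Real.rpow_le_rpow_of_exponent_le hT1
            (show (6 / 100 + -2 : ℝ) ≤ -(7 / 40) by norm_num)
          gcongr
  calc m * ‖∫ t in Set.Ioi (0 : ℝ), Fi (k + 2) (((k : ℝ) + 2) / T) v t‖
      ≤ m * (8 / T + A * ((k : ℝ) + 3) ^ 2 * (Real.exp (v / 2) + Real.exp (-(v / 2))) *
        T ^ (-(1 / 4) : ℝ) + 2000 * ((k : ℝ) + 3) ^ 6 / T ^ 2) := by gcongr
    _ ≤ (2008 + 2 * A) * T ^ (-(7 / 40) : ℝ) := by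
        rw [mul_add, mul_add]
        linarith
    _ ≤ T ^ (1 / 20 : ℝ) * T ^ (-(7 / 40) : ℝ) := by gcongr
    _ = T ^ (-(1 / 8) : ℝ) := by
        rw [← Real.rpow_add hT0]; norm_num

/-- Hardy's function is the normalised completed zeta function -/
lemma Zz_eq (t : ℝ) : ((Zz t : ℝ) : ℂ) = Complex.Gammaℝ (1 / 2 + t * Complex.I) /
    (‖Complex.Gammaℝ (1 / 2 + t * Complex.I)‖ : ℂ) * riemannZeta (1 / 2 + t * Complex.I) := by
  have hcl : ZF.cl t = 1 / 2 + t * Complex.I := by unfold ZF.cl; push_cast; ring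
  have hpi := Real.pi_pos
  have hL := Th.Lc_eq t
  have hG : Complex.Gammaℝ (ZF.cl t) = (Real.pi : ℂ) ^ (-(ZF.cl t) / 2) *
      Complex.Gamma (((1 / 4 : ℝ) : ℂ) + ((t / 2 : ℝ) : ℂ) * Complex.I) := by
    rw [Complex.Gammaℝ_def]
    congr 2
    unfold ZF.cl
    push_cast
    ring
  have hn : ‖Complex.Gammaℝ (ZF.cl t)‖ = Real.pi ^ (-(1 / 4) : ℝ) * Gam.g t := by
    rw [hG, norm_mul, Complex.norm_cpow_eq_rpow_re_of_pos hpi]
    congr 2
    have : (-(ZF.cl t) / 2) = ((-(1/4) : ℝ) : ℂ) + ((-t/2 : ℝ) : ℂ) * Complex.I := by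
      simp only [ZF.cl]; push_cast; ring
    rw [this]
    simp
  rw [← hcl, hn]
  have hg := Gam.g_pos t
  have h1 : Real.pi ^ (1 / 4 : ℝ) * Real.pi ^ (-(1 / 4) : ℝ) = 1 := by
    rw [← Real.rpow_add hpi]; norm_num
  have h2 : Zz t * (Real.pi ^ (-(1 / 4) : ℝ) * Gam.g t) = M1.Lr t := by
    unfold Zz
    field_simp
    linear_combination (M1.Lr t) * h1
  have h3 : (0:ℝ) < Real.pi ^ (-(1 / 4) : ℝ) * Gam.g t := by positivity
  have h4 : ((Real.pi ^ (-(1 / 4) : ℝ) * Gam.g t : ℝ) : ℂ) ≠ 0 := by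
    exact_mod_cast h3.ne'
  rw [div_mul_eq_mul_div, eq_div_iff h4, ← Complex.ofReal_mul, h2, ← M1.Lc_real, hL, hG]

end

end Pool.Agent.TH914.LS
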