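import Pool.Agent.Helper625.M1

set_option autoImplicit false

/-!
# Bounds for the Fourier transform of the completed zeta function near the edge of the strip
-/

namespace Pool.Agent.TH914.LS

open MeasureTheory Filter Topology Set Pool.Agent.Helper625

noncomputable section

/-- the theta series -/
def Sq (a : ℝ) : ℝ := ∑' n : ℤ, Real.exp (-Real.pi * a * (n : ℝ) ^ 2)

lemma norm_term (n : ℤ) (τ : ℂ) :
    ‖jacobiTheta₂_term n 0 τ‖ = Real.exp (-Real.pi * τ.im * (n : ℝ) ^ 2) := by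
  rw [norm_jacobiTheta₂_term]
  congr 1
  simp
  ring

lemma summ {a : ℝ} (ha : 0 < a) : Summable fun n : ℤ => Real.exp (-Real.pi * a * (n : ℝ) ^ 2) := by
  have h := ((summable_jacobiTheta₂_term_iff 0 (a * Complex.I)).mpr (by simpa using ha)).norm
  refine h.congr fun n => ?_
  rw [norm_term]
  simp

lemma theta_le {τ : ℂ} (hτ : 0 < τ.im) : ‖jacobiTheta₂ 0 τ‖ ≤ Sq τ.im := by
  unfold jacobiTheta₂ Sq
  refine (norm_tsum_le_tsum_norm ?_).trans (le_of_eq ?_)
  · exact ((summable_jacobiTheta₂_term_iff 0 τ).mpr hτ).norm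
  · exact tsum_congr fun n => norm_term n τ

lemma Sq_anti {a b : ℝ} (ha : 0 < a) (hab : a ≤ b) : Sq b ≤ Sq a := by
  unfold Sq
  refine Summable.tsum_le_tsum (fun n => ?_) (summ (ha.trans_le hab)) (summ ha)
  apply Real.exp_le_exp.2
  have h1 : (0 : ℝ) ≤ (n : ℝ) ^ 2 := sq_nonneg _
  have h2 := Real.pi_pos
  have h3 : Real.pi * a * (n : ℝ) ^ 2 ≤ Real.pi * b * (n : ℝ) ^ 2 := by gcongr
  linarith

lemma Sq_pos (a : ℝ) : 0 ≤ Sq a := tsum_nonneg fun _ => (Real.exp_pos _).le

lemma Sq_le {a : ℝ} (ha : 0 < a) : Sq a ≤ Sq 1 * (1 + 1 / Real.sqrt a) := by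
  have h0 := Sq_pos 1
  have hs : 0 < Real.sqrt a := Real.sqrt_pos.2 ha
  rcases le_total 1 a with h | h
  · have h1 := Sq_anti one_pos h
    have h2 : 0 ≤ 1 / Real.sqrt a := by positivity
    nlinarith
  · have e : Sq a = 1 / Real.sqrt a * Sq (1 / a) := by
      unfold Sq
      rw [Real.tsum_exp_neg_mul_int_sq ha, ← Real.sqrt_eq_rpow]
      congr 1
      refine tsum_congr fun n => ?_
      congr 1
      ring
    have h1 : Sq (1 / a) ≤ Sq 1 := Sq_anti one_pos (by rw [le_div_iff₀ ha]; linarith)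
    rw [e]
    have h2 : 0 ≤ 1 / Real.sqrt a := by positivity
    nlinarith

/-- the constant -/
def C1 : ℝ := 2 * Real.pi * (Sq 1 + 1)

lemma C1_nonneg : 0 ≤ C1 := by
  have := Sq_pos 1
  have := Real.pi_pos
  unfold C1; positivity

lemma R_le {v d : ℝ} (hd : 0 < d) (hd1 : d ≤ 1 / 2) :
    ‖Th.R (v + (Real.pi / 4 - d : ℝ) * Complex.I)‖ ≤
      C1 * (Real.exp (v / 2) + Real.exp (-(v / 2))) / Real.sqrt d := by
  have hpi := Real.pi_gt_three
  have hpi4 := Real.pi_lt_four
  set w : ℂ := v + (Real.pi / 4 - d : ℝ) * Complex.I with hw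
  have hre : w.re = v := by simp [hw]
  have him : w.im = Real.pi / 4 - d := by simp [hw]
  have hS : w ∈ Th.S := by
    simp only [Th.S, mem_ofPred_eq]
    rw [him, abs_lt]
    constructor <;> linarith
  rw [Th.R_eq_T hS]
  have hy0 := Th.im_pos_of_mem hS
  set y := (Complex.I * Complex.exp (2 * w)).im with hy
  have hyv : y = Real.exp (2 * v) * Real.sin (2 * d) := by
    have h : (Complex.I * Complex.exp (2 * w)).im = (Complex.exp (2 * w)).re := by simp
    rw [hy, h, Complex.exp_re]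
    have h2 : (2 * w).im = Real.pi / 2 - 2 * d := by
      have : (2 * w).im = 2 * w.im := by simp
      rw [this, him]; ring
    have h3 : (2 * w).re = 2 * v := by
      have : (2 * w).re = 2 * w.re := by simp
      rw [this, hre]
    rw [h2, h3, Real.cos_pi_div_two_sub]
  have hsin : d ≤ Real.sin (2 * d) := by
    have h := Real.mul_le_sin (x := 2 * d) (by linarith) (by linarith)
    refine le_trans ?_ h
    rw [div_mul_eq_mul_div, le_div_iff₀ (by linarith)]
    nlinarith
  have hsd : 0 < Real.sqrt d := Real.sqrt_pos.2 hd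
  have hsd1 : Real.sqrt d ≤ 1 := by
    rw [Real.sqrt_le_one]
    linarith
  have hsy : Real.exp v * Real.sqrt d ≤ Real.sqrt y := by
    have e : Real.exp v * Real.sqrt d = Real.sqrt (Real.exp (2 * v) * d) := by
      rw [Real.sqrt_mul (Real.exp_pos _).le, show 2 * v = v + v by ring, Real.exp_add,
        Real.sqrt_mul_self (Real.exp_pos _).le]
    rw [e, hyv]
    apply Real.sqrt_le_sqrt
    gcongr
  have h1 : 1 / Real.sqrt y ≤ Real.exp (-v) / Real.sqrt d := by
    have h2 : 0 < Real.exp v * Real.sqrt d := by positivity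
    refine (one_div_le_one_div_of_le h2 hsy).trans (le_of_eq ?_)
    rw [Real.exp_neg]
    field_simp
  have hth : ‖jacobiTheta₂ 0 (Complex.I * Complex.exp (2 * w))‖ ≤
      Sq 1 * (1 + Real.exp (-v) / Real.sqrt d) := by
    refine (theta_le hy0).trans ((Sq_le hy0).trans ?_)
    have := Sq_pos 1
    gcongr
  have n1 : ‖Complex.exp (w / 2)‖ = Real.exp (v / 2) := by
    rw [Complex.norm_exp]
    congr 1
    have : (w / 2).re = w.re / 2 := by simp
    rw [this, hre]
  have n2 : ‖Complex.exp (-(w / 2))‖ = Real.exp (-(v / 2)) := by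
    rw [Complex.norm_exp]
    congr 1
    have : (-(w / 2)).re = -(w.re / 2) := by simp
    rw [this, hre]
  have n0 : ‖(2 * Real.pi : ℂ)‖ = 2 * Real.pi := by
    rw [norm_mul, Complex.norm_real, Real.norm_eq_abs, abs_of_pos Real.pi_pos]
    norm_num
  unfold Th.T
  rw [norm_mul, n0]
  have h3 : ‖Complex.exp (w / 2) * jacobiTheta₂ 0 (Complex.I * Complex.exp (2 * w)) -
      Complex.exp (w / 2) - Complex.exp (-(w / 2))‖ ≤
      Real.exp (v / 2) * (Sq 1 * (1 + Real.exp (-v) / Real.sqrt d)) + Real.exp (v / 2) +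
        Real.exp (-(v / 2)) := by
    refine (norm_sub_le _ _).trans ?_
    rw [n2]
    gcongr
    refine (norm_sub_le _ _).trans ?_
    rw [n1, norm_mul, n1]
    gcongr
  refine (mul_le_mul_of_nonneg_left h3 (by positivity)).trans ?_
  unfold C1
  rw [mul_assoc (2 * Real.pi), mul_div_assoc]
  refine mul_le_mul_of_nonneg_left ?_ (by positivity)
  have h4 : Real.exp (v / 2) * Real.exp (-v) = Real.exp (-(v / 2)) := by
    rw [← Real.exp_add]; congr 1; ring
  rw [le_div_iff₀ hsd]
  have h5 := Sq_pos 1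
  have e1 := Real.exp_pos (v / 2)
  have e2 := Real.exp_pos (-(v / 2))
  have e3 : (Real.exp (v / 2) * (Sq 1 * (1 + Real.exp (-v) / Real.sqrt d)) + Real.exp (v / 2) +
        Real.exp (-(v / 2))) * Real.sqrt d =
      Sq 1 * (Real.exp (v / 2) * Real.sqrt d + Real.exp (v / 2) * Real.exp (-v)) +
        (Real.exp (v / 2) + Real.exp (-(v / 2))) * Real.sqrt d := by
    field_simp
    ring
  rw [e3, h4]
  have h6 : Real.exp (v / 2) * Real.sqrt d ≤ Real.exp (v / 2) := by nlinarith
  have h7 : (Real.exp (v / 2) + Real.exp (-(v / 2))) * Real.sqrt d ≤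
      Real.exp (v / 2) + Real.exp (-(v / 2)) := by nlinarith
  nlinarith

lemma R_triv {v d : ℝ} (hd : 0 < d) (hd1 : d ≤ 1 / 2) :
    ‖Th.R (v + (Real.pi / 4 - d : ℝ) * Complex.I)‖ ≤ 2000 / d ^ 3 := by
  have hpi := Real.pi_gt_three
  set w : ℂ := v + (Real.pi / 4 - d : ℝ) * Complex.I with hw
  have him : w.im = Real.pi / 4 - d := by simp [hw]
  have hb : ∀ t : ℝ, ‖Th.Lc t * Complex.exp (-Complex.I * t * w)‖ ≤
      20 * ((1 + 4 / d) ^ 2 * Real.exp (-(d / 2) * |t|)) := by
    intro t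
    rw [norm_mul]
    have h1 := Th.norm_Lc_le t
    have h2 : ‖Complex.exp (-Complex.I * t * w)‖ ≤ Real.exp ((Real.pi / 4 - d) * |t|) := by
      apply Th.norm_cexp_le
      rw [him, abs_of_pos (by linarith)]
    have h3 := Th.poly_exp_bound d hd t
    have ht := abs_nonneg t
    calc ‖Th.Lc t‖ * ‖Complex.exp (-Complex.I * t * w)‖ ≤
        (20 * (1 + |t|) * Real.exp (-(Real.pi / 4) * |t|)) * Real.exp ((Real.pi / 4 - d) * |t|) :=
          mul_le_mul h1 h2 (norm_nonneg _) (by positivity)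
      _ = 20 * ((1 + |t|) * Real.exp (-d * |t|)) := by
          rw [mul_assoc, mul_assoc, ← Real.exp_add]
          congr 3
          ring
      _ ≤ 20 * ((1 + |t|) ^ 2 * Real.exp (-d * |t|)) := by
          gcongr
          nlinarith
      _ ≤ _ := by gcongr
  have hi : Integrable fun t : ℝ => 20 * ((1 + 4 / d) ^ 2 * Real.exp (-(d / 2) * |t|)) :=
    ((ZF.integrable_exp_neg_abs (d / 2) (by positivity)).const_mul _).const_mul _
  unfold Th.R
  refine (norm_integral_le_of_norm_le hi (Eventually.of_forall hb)).trans ?_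
  rw [integral_const_mul, integral_const_mul, ZF.integral_exp_neg_abs (d / 2) (by positivity)]
  have h1 : (1 + 4 / d) ^ 2 ≤ 25 / d ^ 2 := by
    have h2 : 1 + 4 / d ≤ 5 / d := by
      rw [show 1 + 4 / d = (d + 4) / d by field_simp]
      gcongr
      linarith
    calc (1 + 4 / d) ^ 2 ≤ (5 / d) ^ 2 := by gcongr
      _ = 25 / d ^ 2 := by ring
  calc 20 * ((1 + 4 / d) ^ 2 * (2 / (d / 2))) ≤ 20 * (25 / d ^ 2 * (2 / (d / 2))) := by gcongr
    _ = 2000 / d ^ 3 := by field_simp; ring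

end

end Pool.Agent.TH914.LS
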