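import Pool.Agent.TH914.LS.OA
import Pool.Agent.H581R3.GPR.Rot

set_option autoImplicit false

/-!
# The completed zeta function against a Gamma density
-/

namespace Pool.Agent.TH914.LS

open MeasureTheory Filter Topology Set Pool.Agent.Helper625
open scoped FourierTransform

noncomputable section

/-- a power times an exponential on the positive half line -/
def fr (s c t : ℝ) : ℝ := (max t 0) ^ (s + 1) * Real.exp (-(c * t))

/-- the same with complex values -/
def fc (s c t : ℝ) : ℂ := ((fr s c t : ℝ) : ℂ)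

variable {s c : ℝ}

lemma fr_cont (hs : 0 ≤ s) : Continuous (fr s c) := by
  unfold fr
  exact ((continuous_id.max continuous_const).rpow_const fun x => Or.inr (by linarith)).mul
    (by fun_prop)

lemma fr_neg (hs : 0 ≤ s) {t : ℝ} (ht : t ≤ 0) : fr s c t = 0 := by
  unfold fr
  rw [max_eq_right ht, Real.zero_rpow (by linarith), zero_mul]

lemma fr_pos {t : ℝ} (ht : 0 < t) : fr s c t = t ^ (s + 1) * Real.exp (-(c * t)) := by
  unfold fr
  rw [max_eq_left ht.le]

lemma fr_ind (hs : 0 ≤ s) : fr s c = (Ioi (0:ℝ)).indicator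
    (fun t : ℝ => t ^ (s + 1) * Real.exp (-(c * t))) := by
  funext t
  by_cases ht : 0 < t
  · rw [indicator_of_mem (show t ∈ Ioi (0:ℝ) from ht), fr_pos ht]
  · rw [indicator_of_notMem (show t ∉ Ioi (0:ℝ) from ht), fr_neg hs (not_lt.1 ht)]

lemma fr_int (hs : 0 ≤ s) (hc : 0 < c) : Integrable (fr s c) := by
  rw [fr_ind hs, integrable_indicator_iff measurableSet_Ioi]
  exact Pool.Agent.H581R3.GPR.Rot.int_rpow_exp (by linarith) hc

lemma fc_cont (hs : 0 ≤ s) : Continuous (fc s c) :=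
  Complex.continuous_ofReal.comp (fr_cont hs)

lemma fc_int (hs : 0 ≤ s) (hc : 0 < c) : Integrable (fc s c) := (fr_int hs hc).ofReal

/-- the frequency -/
def zt (c τ : ℝ) : ℂ := (c : ℂ) + ((2 * Real.pi * τ : ℝ) : ℂ) * Complex.I

lemma zt_re (c τ : ℝ) : (zt c τ).re = c := by simp [zt]

lemma zt_im (c τ : ℝ) : (zt c τ).im = 2 * Real.pi * τ := by simp [zt]

lemma zt_sq (c τ : ℝ) : ‖zt c τ‖ ^ 2 = c ^ 2 + (2 * Real.pi * τ) ^ 2 := by
  rw [← Complex.normSq_eq_norm_sq, Complex.normSq_apply, zt_re, zt_im]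
  ring

lemma fourier_fc (hs : 0 ≤ s) (hc : 0 < c) (τ : ℝ) :
    𝓕 (fc s c) τ = (1 / zt c τ) ^ (((s + 2 : ℝ)) : ℂ) * Complex.Gamma ((s + 2 : ℝ) : ℂ) := by
  rw [Real.fourier_real_eq_integral_exp_smul]
  have h1 := Pool.Agent.H581R3.GPR.Rot.rot_formula (a := ((s + 2 : ℝ) : ℂ)) (r := zt c τ)
    (by rw [Complex.ofReal_re]; linarith) (by rw [zt_re]; exact hc)
  rw [← h1, ← integral_indicator measurableSet_Ioi]
  congr 1
  funext t
  by_cases ht : 0 < t
  · rw [indicator_of_mem (show t ∈ Ioi (0:ℝ) from ht)]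
    unfold fc
    rw [fr_pos ht, smul_eq_mul]
    push_cast
    rw [Complex.ofReal_cpow ht.le]
    have e1 : ((s : ℂ) + 2 - 1) = ((s + 1 : ℝ) : ℂ) := by push_cast; ring
    rw [e1, mul_left_comm, ← Complex.exp_add]
    congr 2
    unfold zt
    push_cast
    ring
  · rw [indicator_of_notMem (show t ∉ Ioi (0:ℝ) from ht)]
    unfold fc
    rw [fr_neg hs (not_lt.1 ht)]
    simp

lemma norm_fourier (hs : 0 ≤ s) (hc : 0 < c) (τ : ℝ) :
    ‖𝓕 (fc s c) τ‖ = Real.Gamma (s + 2) * (‖1 / zt c τ‖ ^ s *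
      (c ^ 2 + (2 * Real.pi * τ) ^ 2)⁻¹) := by
  have hz : 0 < ‖zt c τ‖ := by
    rw [norm_pos_iff]
    intro h
    have := zt_re c τ
    rw [h, Complex.zero_re] at this
    linarith
  rw [fourier_fc hs hc, norm_mul, Complex.norm_cpow_real, Complex.Gamma_ofReal, Complex.norm_real,
    Real.norm_eq_abs, abs_of_pos (Real.Gamma_pos_of_pos (by linarith)), mul_comm]
  congr 1
  have hz2 : 0 < ‖1 / zt c τ‖ := by
    rw [norm_div, norm_one]; positivity
  rw [Real.rpow_add hz2, Real.rpow_two]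
  congr 1
  rw [norm_div, norm_one, div_pow, one_pow, zt_sq, one_div]

lemma inv_le (hc : 0 < c) (τ : ℝ) : ‖1 / zt c τ‖ ≤ 1 / c := by
  rw [norm_div, norm_one]
  apply one_div_le_one_div_of_le hc
  calc c = |(zt c τ).re| := by rw [zt_re, abs_of_pos hc]
    _ ≤ ‖zt c τ‖ := Complex.abs_re_le_norm _

lemma inv_le_one {τ : ℝ} (hτ : 1 ≤ |τ|) : ‖1 / zt c τ‖ ≤ 1 := by
  have h1 : 1 ≤ ‖zt c τ‖ := by
    refine le_trans ?_ (Complex.abs_im_le_norm _)
    rw [zt_im, abs_mul, abs_of_pos (by positivity)]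
    have := Real.pi_gt_three
    nlinarith
  rw [norm_div, norm_one, div_le_one (by linarith)]
  exact h1

lemma lor_int (hc : 0 < c) : Integrable (fun τ : ℝ => (c ^ 2 + (2 * Real.pi * τ) ^ 2)⁻¹) ∧
    ∫ τ : ℝ, (c ^ 2 + (2 * Real.pi * τ) ^ 2)⁻¹ = 1 / (2 * c) := by
  have hpi := Real.pi_pos
  have e : (fun τ : ℝ => (c ^ 2 + (2 * Real.pi * τ) ^ 2)⁻¹) =
      fun τ : ℝ => (c ^ 2)⁻¹ * (fun x : ℝ => (1 + x ^ 2)⁻¹) ((2 * Real.pi / c) * τ) := by
    funext τ
    simp only
    rw [← mul_inv]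
    congr 1
    field_simp
  have h0 : (2 * Real.pi / c) ≠ 0 := by positivity
  constructor
  · rw [e]
    exact (integrable_inv_one_add_sq.comp_mul_left' h0).const_mul _
  · rw [e, integral_const_mul, Measure.integral_comp_mul_left (fun x : ℝ => (1 + x ^ 2)⁻¹),
      integral_univ_inv_one_add_sq, abs_of_pos (by positivity), smul_eq_mul]
    field_simp

lemma fourier_int (hs : 0 ≤ s) (hc : 0 < c) : Integrable (𝓕 (fc s c)) := by
  have hm : Continuous (𝓕 (fc s c)) := by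
    have : 𝓕 (fc s c) = fun τ => (1 / zt c τ) ^ (((s + 2 : ℝ)) : ℂ) *
        Complex.Gamma ((s + 2 : ℝ) : ℂ) := by
      funext τ; exact fourier_fc hs hc τ
    rw [this]
    refine Continuous.mul ?_ continuous_const
    have hz : ∀ τ, zt c τ ≠ 0 := by
      intro τ h
      have := zt_re c τ
      rw [h, Complex.zero_re] at this
      linarith
    have hzc : Continuous fun τ => 1 / zt c τ := by
      refine continuous_const.div ?_ hz
      unfold zt
      fun_prop
    refine hzc.cpow continuous_const fun τ => ?_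
    left
    rw [one_div, Complex.inv_re, zt_re]
    exact div_pos hc (Complex.normSq_pos.2 (hz τ))
  refine ((lor_int hc).1.const_mul (Real.Gamma (s + 2) * (1 / c) ^ s)).mono'
    hm.aestronglyMeasurable (Eventually.of_forall fun τ => ?_)
  rw [norm_fourier hs hc]
  have hG := Real.Gamma_pos_of_pos (show (0:ℝ) < s + 2 by linarith)
  have h1 : ‖1 / zt c τ‖ ^ s ≤ (1 / c) ^ s :=
    Real.rpow_le_rpow (norm_nonneg _) (inv_le hc τ) hs
  calc Real.Gamma (s + 2) * (‖1 / zt c τ‖ ^ s * (c ^ 2 + (2 * Real.pi * τ) ^ 2)⁻¹)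
      ≤ Real.Gamma (s + 2) * ((1 / c) ^ s * (c ^ 2 + (2 * Real.pi * τ) ^ 2)⁻¹) := by gcongr
    _ = Real.Gamma (s + 2) * (1 / c) ^ s * (c ^ 2 + (2 * Real.pi * τ) ^ 2)⁻¹ := by ring

lemma fc_inv (hs : 0 ≤ s) (hc : 0 < c) (t : ℝ) :
    fc s c t = ∫ τ : ℝ, Complex.exp (((2 * Real.pi * τ * t : ℝ) : ℂ) * Complex.I) * 𝓕 (fc s c) τ := by
  have h := congrFun ((fc_cont hs).fourierInv_fourier_eq (fc_int hs hc) (fourier_int hs hc)) t
  rw [← h, Real.fourierInv_eq_fourier_neg, Real.fourier_real_eq_integral_exp_smul]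
  congr 1
  funext τ
  rw [smul_eq_mul]
  congr 3
  push_cast
  ring

/-- the product of the completed zeta function and an exponential -/
def Qt (v d t : ℝ) : ℂ := Th.Lc t * Complex.exp (-Complex.I * t * (v + (Real.pi / 4 - d : ℝ) * Complex.I))

lemma Qt_int {v d : ℝ} (hd : 0 < d) (hd1 : d ≤ 1 / 2) : Integrable (Qt v d) := by
  have hpi := Real.pi_gt_three
  set w : ℂ := v + (Real.pi / 4 - d : ℝ) * Complex.I with hw
  have him : w.im = Real.pi / 4 - d := by simp [hw]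
  have hi : Integrable fun t : ℝ => 20 * ((1 + 4 / d) ^ 2 * Real.exp (-(d / 2) * |t|)) :=
    ((ZF.integrable_exp_neg_abs (d / 2) (by positivity)).const_mul _).const_mul _
  have hm : Continuous (Qt v d) := by
    unfold Qt
    exact Th.Lc_cont.mul (by fun_prop)
  refine hi.mono' hm.aestronglyMeasurable (Eventually.of_forall fun t => ?_)
  change ‖Th.Lc t * Complex.exp (-Complex.I * t * w)‖ ≤ _
  rw [norm_mul]
  have h1 := Th.norm_Lc_le t
  have h2 : ‖Complex.exp (-Complex.I * t * w)‖ ≤ Real.exp ((Real.pi / 4 - d) * |t|) := by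
    apply Th.norm_cexp_le
    rw [him, abs_of_pos (by linarith)]
  have h3 := Th.poly_exp_bound d hd t
  have ht := abs_nonneg t
  calc ‖Th.Lc t‖ * ‖Complex.exp (-Complex.I * t * w)‖ ≤
      (20 * (1 + |t|) * Real.exp (-(Real.pi / 4) * |t|)) * Real.exp ((Real.pi / 4 - d) * |t|) :=
        mul_le_mul h1 h2 (norm_nonneg _) (by positivity)
    _ = 20 * ((1 + |t|) * Real.exp (-d * |t|)) := by
        rw [mul_assoc, mul_assoc, ← Real.exp_add]
        congr 3
        ring
    _ ≤ 20 * ((1 + |t|) ^ 2 * Real.exp (-d * |t|)) := by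
        gcongr
        nlinarith
    _ ≤ _ := by gcongr

lemma Qt_shift (v d τ : ℝ) : ∫ t : ℝ, Complex.exp (((2 * Real.pi * τ * t : ℝ) : ℂ) * Complex.I) *
    Qt v d t = Th.R (((v - 2 * Real.pi * τ : ℝ) : ℂ) + (Real.pi / 4 - d : ℝ) * Complex.I) := by
  unfold Th.R Qt
  congr 1
  funext t
  rw [mul_left_comm, ← Complex.exp_add]
  congr 2
  push_cast
  ring

lemma swap {v d : ℝ} (hs : 0 ≤ s) (hc : 0 < c) (hd : 0 < d) (hd1 : d ≤ 1 / 2) :
    ∫ t : ℝ, fc s c t * Qt v d t = ∫ τ : ℝ, 𝓕 (fc s c) τ *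
      Th.R (((v - 2 * Real.pi * τ : ℝ) : ℂ) + (Real.pi / 4 - d : ℝ) * Complex.I) := by
  have hprod : Integrable (Function.uncurry fun (t τ : ℝ) =>
      Complex.exp (((2 * Real.pi * τ * t : ℝ) : ℂ) * Complex.I) * (Qt v d t * 𝓕 (fc s c) τ))
      (volume.prod volume) := by
    have h1 : Integrable (fun p : ℝ × ℝ => Qt v d p.1 * 𝓕 (fc s c) p.2) (volume.prod volume) :=
      Integrable.mul_prod (Qt_int hd hd1) (fourier_int hs hc)
    refine h1.bdd_mul (c := 1) ?_ (Eventually.of_forall fun p => ?_)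
    · exact (by fun_prop : Continuous fun p : ℝ × ℝ =>
        Complex.exp (((2 * Real.pi * p.2 * p.1 : ℝ) : ℂ) * Complex.I)).aestronglyMeasurable
    · rw [Complex.norm_exp_ofReal_mul_I]
  calc ∫ t : ℝ, fc s c t * Qt v d t
      = ∫ t : ℝ, ∫ τ : ℝ, Complex.exp (((2 * Real.pi * τ * t : ℝ) : ℂ) * Complex.I) *
          (Qt v d t * 𝓕 (fc s c) τ) := by
        congr 1
        funext t
        rw [fc_inv hs hc t, ← integral_mul_const]
        congr 1
        funext τ
        ring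
    _ = ∫ τ : ℝ, ∫ t : ℝ, Complex.exp (((2 * Real.pi * τ * t : ℝ) : ℂ) * Complex.I) *
          (Qt v d t * 𝓕 (fc s c) τ) := integral_integral_swap hprod
    _ = _ := by
        congr 1
        funext τ
        rw [← Qt_shift, ← integral_const_mul]
        congr 1
        funext t
        ring

theorem main_bound {v d : ℝ} (hs : 0 ≤ s) (hc : 0 < c) (hd : 0 < d) (hd1 : d ≤ 1 / 2) :
    ‖∫ t : ℝ, fc s c t * Qt v d t‖ ≤ Real.Gamma (s + 2) *
      ((C1 * Real.exp Real.pi * (Real.exp (v / 2) + Real.exp (-(v / 2))) / Real.sqrt d *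
        (1 / c) ^ s + 2000 / d ^ 3) * (1 / (2 * c))) := by
  have hpi := Real.pi_gt_three
  have hG := Real.Gamma_pos_of_pos (show (0:ℝ) < s + 2 by linarith)
  have hC1 := C1_nonneg
  set B := C1 * Real.exp Real.pi * (Real.exp (v / 2) + Real.exp (-(v / 2))) / Real.sqrt d *
        (1 / c) ^ s + 2000 / d ^ 3 with hB
  rw [swap hs hc hd hd1]
  have hbd : ∀ τ : ℝ, ‖𝓕 (fc s c) τ *
      Th.R (((v - 2 * Real.pi * τ : ℝ) : ℂ) + (Real.pi / 4 - d : ℝ) * Complex.I)‖ ≤
      Real.Gamma (s + 2) * (B * (c ^ 2 + (2 * Real.pi * τ) ^ 2)⁻¹) := by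
    intro τ
    rw [norm_mul, norm_fourier hs hc, mul_assoc, mul_assoc]
    refine mul_le_mul_of_nonneg_left ?_ hG.le
    have hl : 0 ≤ (c ^ 2 + (2 * Real.pi * τ) ^ 2)⁻¹ := by positivity
    rw [← mul_assoc, mul_right_comm]
    refine mul_le_mul_of_nonneg_right ?_ hl
    have hp : 0 ≤ ‖1 / zt c τ‖ ^ s := by positivity
    have hp2 : 0 ≤ C1 * Real.exp Real.pi * (Real.exp (v / 2) + Real.exp (-(v / 2))) /
        Real.sqrt d * (1 / c) ^ s := by positivity
    have hp3 : 0 ≤ 2000 / d ^ 3 := by positivity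
    rcases le_total |τ| 1 with h | h
    · have h1 : ‖1 / zt c τ‖ ^ s ≤ (1 / c) ^ s :=
        Real.rpow_le_rpow (norm_nonneg _) (inv_le hc τ) hs
      have h2 := R_le (v := v - 2 * Real.pi * τ) hd hd1
      obtain ⟨h3, h4⟩ := abs_le.1 h
      have h5 : Real.exp ((v - 2 * Real.pi * τ) / 2) ≤ Real.exp Real.pi * Real.exp (v / 2) := by
        rw [← Real.exp_add]
        apply Real.exp_le_exp.2
        nlinarith
      have h6 : Real.exp (-((v - 2 * Real.pi * τ) / 2)) ≤
          Real.exp Real.pi * Real.exp (-(v / 2)) := by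
        rw [← Real.exp_add]
        apply Real.exp_le_exp.2
        nlinarith
      have h7 : ‖Th.R (((v - 2 * Real.pi * τ : ℝ) : ℂ) + (Real.pi / 4 - d : ℝ) * Complex.I)‖ ≤
          C1 * Real.exp Real.pi * (Real.exp (v / 2) + Real.exp (-(v / 2))) / Real.sqrt d := by
        refine h2.trans ?_
        rw [mul_assoc C1]
        gcongr
        linarith
      calc ‖1 / zt c τ‖ ^ s * ‖Th.R (((v - 2 * Real.pi * τ : ℝ) : ℂ) +
            (Real.pi / 4 - d : ℝ) * Complex.I)‖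
          ≤ (1 / c) ^ s * (C1 * Real.exp Real.pi * (Real.exp (v / 2) + Real.exp (-(v / 2))) /
            Real.sqrt d) := mul_le_mul h1 h7 (norm_nonneg _) (by positivity)
        _ ≤ B := by rw [hB]; linarith
    · have h1 : ‖1 / zt c τ‖ ^ s ≤ 1 := Real.rpow_le_one (norm_nonneg _) (inv_le_one h) hs
      have h2 := R_triv (v := v - 2 * Real.pi * τ) hd hd1
      calc ‖1 / zt c τ‖ ^ s * ‖Th.R (((v - 2 * Real.pi * τ : ℝ) : ℂ) +
            (Real.pi / 4 - d : ℝ) * Complex.I)‖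
          ≤ 1 * (2000 / d ^ 3) := mul_le_mul h1 h2 (norm_nonneg _) (by positivity)
        _ ≤ B := by rw [hB]; linarith
  refine (norm_integral_le_of_norm_le (((lor_int hc).1.const_mul B).const_mul _)
    (Eventually.of_forall hbd)).trans (le_of_eq ?_)
  rw [integral_const_mul, integral_const_mul, (lor_int hc).2]

end

end Pool.Agent.TH914.LS
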