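import Pool.Agent.TH914.LS.OB

set_option autoImplicit false

/-!
# Hardy's function against a Gamma density, part 1: Stirling's formula and the error term
-/

namespace Pool.Agent.TH914.LS

open MeasureTheory Filter Topology Set Pool.Agent.Helper625

noncomputable section

/-- the Gamma density -/
def og (k : ℕ) (δ t : ℝ) : ℝ := δ ^ (k + 1) * t ^ k * Real.exp (-(δ * t)) / (k.factorial : ℝ)

/-- Hardy's function -/
def Zz (t : ℝ) : ℝ := Real.pi ^ (1 / 4 : ℝ) * M1.Lr t / Gam.g t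

/-- the approximation of `1 / g` -/
def Gt (t : ℝ) : ℝ := (1 / (64 * Real.pi ^ 4)) ^ (1 / 8 : ℝ) * (t ^ (1 / 4 : ℝ) * Real.exp (Real.pi / 4 * t))

lemma abs_Zz (t : ℝ) : |Zz t| = ‖riemannZeta (ZF.cl t)‖ := by
  have hg := Gam.g_pos t
  have hpi := Real.pi_pos
  unfold Zz
  rw [abs_div, abs_mul, abs_of_pos (by positivity : (0:ℝ) < Real.pi ^ (1 / 4 : ℝ)), abs_of_pos hg,
    M1.abs_Lr, Th.norm_Lc]
  have h1 : Real.pi ^ (1 / 4 : ℝ) * Real.pi ^ (-(1 / 4) : ℝ) = 1 := by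
    rw [← Real.rpow_add hpi]; norm_num
  field_simp
  linear_combination ‖riemannZeta (ZF.cl t)‖ * h1

lemma abs_Zz_le {t : ℝ} (ht : 0 ≤ t) : |Zz t| ≤ 4 * (1 + t) := by
  rw [abs_Zz]
  refine (ZF.zeta_bound t).trans ?_
  have := Th.norm_cl_le t
  rw [abs_of_nonneg ht] at this
  linarith

lemma Gt_pow {t : ℝ} (ht : 0 < t) : Gt t ^ 8 = t ^ 2 * Real.exp (2 * Real.pi * t) / (64 * Real.pi ^ 4) := by
  have hpi := Real.pi_pos
  unfold Gt
  rw [mul_pow, mul_pow, ← Real.rpow_natCast (_ ^ (1 / 8 : ℝ)), ← Real.rpow_mul (by positivity),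
    ← Real.rpow_natCast (t ^ (1 / 4 : ℝ)), ← Real.rpow_mul ht.le, ← Real.exp_nat_mul]
  have e1 : (1 / 8 : ℝ) * ((8 : ℕ) : ℝ) = 1 := by norm_num
  have e2 : (1 / 4 : ℝ) * ((8 : ℕ) : ℝ) = 2 := by norm_num
  rw [e1, e2, Real.rpow_one, Real.rpow_two]
  have e3 : ((8 : ℕ) : ℝ) * (Real.pi / 4 * t) = 2 * Real.pi * t := by push_cast; ring
  rw [e3]
  ring

lemma Gt_nonneg {t : ℝ} (ht : 0 < t) : 0 < Gt t := by
  have hpi := Real.pi_pos
  unfold Gt; positivity

lemma pow_close {r : ℝ} (hr : 0 ≤ r) : |r - 1| ≤ |r ^ 8 - 1| := by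
  have e : r ^ 8 - 1 = (r - 1) * (r ^ 7 + r ^ 6 + r ^ 5 + r ^ 4 + r ^ 3 + r ^ 2 + r + 1) := by ring
  rw [e, abs_mul]
  have h : 1 ≤ |r ^ 7 + r ^ 6 + r ^ 5 + r ^ 4 + r ^ 3 + r ^ 2 + r + 1| := by
    rw [abs_of_nonneg (by positivity)]
    have : 0 ≤ r ^ 7 + r ^ 6 + r ^ 5 + r ^ 4 + r ^ 3 + r ^ 2 + r := by positivity
    linarith
  exact le_mul_of_one_le_right (abs_nonneg _) h

lemma stirling {t : ℝ} (ht : 0 < t) : |Gam.g t * Gt t - 1| ≤ 1 / t ^ 2 := by
  have hpi := Real.pi_gt_three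
  have hg := Gam.g_pos t
  have hG := Gt_nonneg ht
  refine (pow_close (by positivity)).trans ?_
  rw [mul_pow, Gt_pow ht]
  set c := Real.cosh (Real.pi * t) with hc
  set E := Real.exp (2 * Real.pi * t) with hE
  have hE0 : 0 < E := Real.exp_pos _
  have hEe : E = Real.exp (Real.pi * t) ^ 2 := by
    rw [hE, ← Real.exp_nat_mul]; congr 1; push_cast; ring
  have hu := Gam.g_upper t
  have hl := Gam.g_lower t
  rw [← hc] at hu hl
  have hc1 : Real.exp (Real.pi * t) / 2 ≤ c := by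
    rw [hc, Real.cosh_eq]
    have := Real.exp_pos (-(Real.pi * t))
    linarith
  have hc2 : E ≤ 4 * c ^ 2 := by
    rw [hEe]
    have h0 := Real.exp_pos (Real.pi * t)
    nlinarith
  set g8 := Gam.g t ^ 8 with hg8
  have hg80 : 0 < g8 := by positivity
  set P := 64 * Real.pi ^ 4 with hP
  have hP0 : 0 < P := by positivity
  set r := g8 * (t ^ 2 * E / P) with hr
  have hrP : r * P = g8 * t ^ 2 * E := by
    rw [hr]; field_simp
  have hr0 : 0 < r := by positivity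
  have ht2 : 0 < t ^ 2 := by positivity
  rw [abs_le]
  constructor
  · -- lower bound
    rcases le_or_gt t 1 with h1 | h1
    · have h2 : 1 ≤ 1 / t ^ 2 := by
        rw [le_div_iff₀ ht2]; nlinarith
      linarith
    · set x := Real.pi * t with hx
      set u := Real.exp (-(2 * x)) with hu'
      have hu0 : 0 < u := Real.exp_pos _
      have hx0 : 0 < x := by positivity
      have hux : u * (18 * t ^ 2) ≤ 1 := by
        have h2 : 1 + 2 * x + (2 * x) ^ 2 / 2 ≤ Real.exp (2 * x) :=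
          Real.quadratic_le_exp_of_nonneg (by positivity)
        have h3 : u * Real.exp (2 * x) = 1 := by
          rw [hu', ← Real.exp_add]; simp
        have h4 : 18 * t ^ 2 ≤ Real.exp (2 * x) := by
          have h5 : 9 * t ^ 2 ≤ x ^ 2 := by
            have h6 : 3 * t ≤ x := by rw [hx]; gcongr
            have h7 := pow_le_pow_left₀ (by positivity) h6 2
            linarith [h7, mul_pow 3 t 2]
          nlinarith
        nlinarith
      have hcu : 4 * c ^ 2 = E * (1 + u) ^ 2 := by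
        rw [hc, Real.cosh_eq, hEe]
        have h3 : Real.exp x * Real.exp (-x) = 1 := by rw [← Real.exp_add]; simp
        have h4 : u = Real.exp (-x) * Real.exp (-x) := by
          rw [hu', ← Real.exp_add]; congr 1; ring
        rw [h4]
        have h5 : Real.exp x * (Real.exp (-x) * Real.exp (-x)) = Real.exp (-x) := by
          rw [← mul_assoc, h3, one_mul]
        linear_combination (-(2 * Real.exp x) - Real.exp x * (Real.exp (-x) * Real.exp (-x)) -
          Real.exp (-x)) * h5 + 0 * h3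
      -- 4 t² P ≤ r P (1+u)² (4t²+1)
      have h6 : 4 * t ^ 2 ≤ r * (1 + u) ^ 2 * (4 * t ^ 2 + 1) := by
        have h7 : P * (4 * t ^ 2) ≤ P * (r * (1 + u) ^ 2 * (4 * t ^ 2 + 1)) := by
          calc P * (4 * t ^ 2) ≤ (g8 * c ^ 2 * (4 * t ^ 2 + 1)) * (4 * t ^ 2) :=
                mul_le_mul_of_nonneg_right hl (by positivity)
            _ = g8 * t ^ 2 * (4 * c ^ 2) * (4 * t ^ 2 + 1) := by ring
            _ = (r * P) * (1 + u) ^ 2 * (4 * t ^ 2 + 1) := by rw [hcu, hrP]; ring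
            _ = _ := by ring
        exact le_of_mul_le_mul_left h7 hP0
      have hu1 : (1 + u) ^ 2 * (6 * t ^ 2) ≤ 6 * t ^ 2 + 1 := by
        have h8 : u ≤ 1 := by nlinarith
        nlinarith [mul_nonneg hu0.le ht2.le]
      by_contra hcon
      push Not at hcon
      have h9 : r * t ^ 2 < t ^ 2 - 1 := by
        have h10 : r < 1 - 1 / t ^ 2 := by linarith
        have h11 : r * t ^ 2 < (1 - 1 / t ^ 2) * t ^ 2 := mul_lt_mul_of_pos_right h10 ht2
        have h12 : (1 - 1 / t ^ 2) * t ^ 2 = t ^ 2 - 1 := by field_simp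
        linarith
      have h13 : 4 * t ^ 2 * (6 * t ^ 2) * t ^ 2 ≤ (t ^ 2 - 1) * (6 * t ^ 2 + 1) * (4 * t ^ 2 + 1) := by
        calc 4 * t ^ 2 * (6 * t ^ 2) * t ^ 2 ≤
            r * (1 + u) ^ 2 * (4 * t ^ 2 + 1) * (6 * t ^ 2) * t ^ 2 := by gcongr
          _ = (r * t ^ 2) * ((1 + u) ^ 2 * (6 * t ^ 2)) * (4 * t ^ 2 + 1) := by ring
          _ ≤ (t ^ 2 - 1) * (6 * t ^ 2 + 1) * (4 * t ^ 2 + 1) := by
              have h14 : 0 ≤ t ^ 2 - 1 := by nlinarith
              gcongr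
      nlinarith [sq_nonneg (t ^ 2), mul_pos ht2 ht2]
  · -- upper bound
    have h1 : r * (4 * t ^ 2 + 1) ^ 2 ≤ 4 * t ^ 2 * (4 * t ^ 2 + 5) := by
      have h2 : P * (r * (4 * t ^ 2 + 1) ^ 2) ≤ P * (4 * t ^ 2 * (4 * t ^ 2 + 5)) := by
        calc P * (r * (4 * t ^ 2 + 1) ^ 2) = (r * P) * (4 * t ^ 2 + 1) ^ 2 := by ring
          _ = g8 * t ^ 2 * E * (4 * t ^ 2 + 1) ^ 2 := by rw [hrP]
          _ ≤ g8 * t ^ 2 * (4 * c ^ 2) * (4 * t ^ 2 + 1) ^ 2 := by gcongr
          _ = 4 * t ^ 2 * (g8 * c ^ 2 * (4 * t ^ 2 + 1) ^ 2) := by ring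
          _ ≤ 4 * t ^ 2 * (P * (4 * t ^ 2 + 5)) := by gcongr
          _ = _ := by ring
      exact le_of_mul_le_mul_left h2 hP0
    have h3 : r - 1 ≤ 1 / t ^ 2 := by
      rw [le_div_iff₀ ht2]
      by_contra hcon
      push Not at hcon
      have h4 : t ^ 2 + 1 < r * t ^ 2 := by linarith
      have h5 : (t ^ 2 + 1) * (4 * t ^ 2 + 1) ^ 2 < 4 * t ^ 2 * (4 * t ^ 2 + 5) * t ^ 2 := by
        calc (t ^ 2 + 1) * (4 * t ^ 2 + 1) ^ 2 < r * t ^ 2 * (4 * t ^ 2 + 1) ^ 2 :=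
              mul_lt_mul_of_pos_right h4 (by positivity)
          _ = r * (4 * t ^ 2 + 1) ^ 2 * t ^ 2 := by ring
          _ ≤ _ := mul_le_mul_of_nonneg_right h1 ht2.le
      nlinarith [mul_pos ht2 ht2]
    exact h3

lemma og_nonneg (k : ℕ) {δ t : ℝ} (hδ : 0 < δ) (ht : 0 ≤ t) : 0 ≤ og k δ t := by
  unfold og; positivity

lemma og_int (k : ℕ) {δ : ℝ} (hδ : 0 < δ) : IntegrableOn (og k δ) (Ioi 0) ∧
    ∫ t in Ioi (0:ℝ), og k δ t = 1 := by
  have e : ∀ t : ℝ, og k δ t = (δ ^ (k + 1) / (k.factorial : ℝ)) * (t ^ k * Real.exp (-(δ * t))) := by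
    intro t; unfold og; ring
  have e2 : ∀ t : ℝ, t ^ k * Real.exp (-(δ * t)) = t ^ (((k + 1 : ℕ) : ℝ) - 1) * Real.exp (-(δ * t)) := by
    intro t
    have : (((k + 1 : ℕ) : ℝ) - 1) = (k : ℝ) := by push_cast; ring
    rw [this, Real.rpow_natCast]
  have hk : (-1 : ℝ) < (k : ℝ) := by have : (0:ℝ) ≤ k := Nat.cast_nonneg k; linarith
  constructor
  · have h := Pool.Agent.H581R3.GPR.Rot.int_rpow_exp hk hδ
    have h2 : IntegrableOn (fun x : ℝ => δ ^ (k + 1) / (k.factorial : ℝ) *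
      (x ^ (k : ℝ) * Real.exp (-(δ * x)))) (Ioi 0) := h.const_mul _
    refine h2.congr_fun (fun t _ => ?_) measurableSet_Ioi
    simp only
    rw [e, Real.rpow_natCast]
  · simp only [e, e2]
    rw [integral_const_mul, Real.integral_rpow_mul_exp_neg_mul_Ioi (by positivity) hδ]
    rw [Real.rpow_natCast]
    have : Real.Gamma ((k + 1 : ℕ) : ℝ) = k.factorial := by
      push_cast
      exact Real.Gamma_nat_eq_factorial k
    rw [this]
    have hf : (k.factorial : ℝ) ≠ 0 := by positivity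
    field_simp
    rw [← mul_pow, mul_one_div_cancel hδ.ne', one_pow]

lemma og_div (k : ℕ) {δ t : ℝ} (ht : 0 < t) :
    og (k + 1) δ t / t = (δ / (k + 1)) * og k δ t := by
  unfold og
  rw [Nat.factorial_succ]
  push_cast
  field_simp
  ring

end

end Pool.Agent.TH914.LS
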