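import Pool.Agent.TH914.LS.OC

set_option autoImplicit false

/-!
# Hardy's function against a Gamma density, part 2: the core estimate
-/

namespace Pool.Agent.TH914.LS

open MeasureTheory Filter Topology Set Pool.Agent.Helper625

noncomputable section

lemma g_cont : Continuous Gam.g := by
  unfold Gam.g
  refine Continuous.norm ?_
  rw [continuous_iff_continuousAt]
  intro t
  have hz : ∀ m : ℕ, ((1 / 4 : ℝ) : ℂ) + ((t / 2 : ℝ) : ℂ) * Complex.I ≠ -(m : ℂ) := by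
    intro m h
    have := congrArg Complex.re h
    simp at this
    have hm : (0:ℝ) ≤ m := Nat.cast_nonneg m
    linarith
  have h1 : ContinuousAt Complex.Gamma (((1 / 4 : ℝ) : ℂ) + ((t / 2 : ℝ) : ℂ) * Complex.I) :=
    (Complex.differentiableAt_Gamma _ hz).continuousAt
  exact ContinuousAt.comp (f := fun t : ℝ => ((1 / 4 : ℝ) : ℂ) + ((t / 2 : ℝ) : ℂ) * Complex.I) h1
    (by fun_prop)

lemma Zz_cont : Continuous Zz := by
  unfold Zz
  exact (continuous_const.mul M1.Lr_cont).div g_cont fun t => (Gam.g_pos t).ne'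

lemma og_cont (k : ℕ) (δ : ℝ) : Continuous (og k δ) := by
  unfold og
  exact (by fun_prop : Continuous fun t : ℝ => δ ^ (k + 1) * t ^ k * Real.exp (-(δ * t))).div_const _

lemma og_mul (k : ℕ) {δ : ℝ} (hδ : 0 < δ) (t : ℝ) :
    og k δ t * t = ((k + 1) / δ) * og (k + 1) δ t := by
  unfold og
  rw [Nat.factorial_succ]
  push_cast
  field_simp
  ring

/-- the oscillating factor -/
def ee (v t : ℝ) : ℂ := Complex.exp (((-(t * v) : ℝ) : ℂ) * Complex.I)

lemma norm_ee (v t : ℝ) : ‖ee v t‖ = 1 := by unfold ee; rw [Complex.norm_exp_ofReal_mul_I]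

lemma ee_cont (v : ℝ) : Continuous (ee v) := by unfold ee; fun_prop

/-- the integrand -/
def Fi (k : ℕ) (δ v t : ℝ) : ℂ := ((og k δ t : ℝ) : ℂ) * (((Zz t : ℝ) : ℂ) * ee v t)

lemma Fi_cont (k : ℕ) (δ v : ℝ) : Continuous (Fi k δ v) := by
  unfold Fi
  exact (Complex.continuous_ofReal.comp (og_cont k δ)).mul
    ((Complex.continuous_ofReal.comp Zz_cont).mul (ee_cont v))

lemma norm_Fi (k : ℕ) (δ v : ℝ) (hδ : 0 < δ) {t : ℝ} (ht : 0 ≤ t) :
    ‖Fi k δ v t‖ = og k δ t * |Zz t| := by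
  unfold Fi
  rw [norm_mul, norm_mul, norm_ee, mul_one, Complex.norm_real, Complex.norm_real, Real.norm_eq_abs,
    Real.norm_eq_abs, abs_of_nonneg (og_nonneg k hδ ht)]

lemma Fi_int (k : ℕ) (δ v : ℝ) (hδ : 0 < δ) : IntegrableOn (Fi k δ v) (Ioi 0) := by
  have h1 := (og_int k hδ).1
  have h2 := (og_int (k + 1) hδ).1
  have h3 : IntegrableOn (fun t => 4 * (og k δ t + ((k + 1) / δ) * og (k + 1) δ t)) (Ioi 0) :=
    (h1.add (h2.const_mul _)).const_mul _
  refine Integrable.mono' h3 (Fi_cont k δ v).aestronglyMeasurable ?_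
  rw [ae_restrict_iff' measurableSet_Ioi]
  refine Eventually.of_forall fun t ht => ?_
  have ht0 : (0:ℝ) ≤ t := le_of_lt ht
  rw [norm_Fi k δ v hδ ht0, ← og_mul k hδ t]
  have h4 := abs_Zz_le ht0
  have h5 := og_nonneg k hδ ht0
  calc og k δ t * |Zz t| ≤ og k δ t * (4 * (1 + t)) := by gcongr
    _ = _ := by ring

/-- the constant -/
def Kc (k : ℕ) (δ : ℝ) : ℝ :=
  Real.pi ^ (1 / 4 : ℝ) * (1 / (64 * Real.pi ^ 4)) ^ (1 / 8 : ℝ) * (δ ^ (k + 1) / (k.factorial : ℝ))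

lemma Kc_nonneg (k : ℕ) {δ : ℝ} (hδ : 0 < δ) : 0 ≤ Kc k δ := by
  have := Real.pi_pos
  unfold Kc; positivity

lemma Kc_le (k : ℕ) {δ : ℝ} (hδ : 0 < δ) : Kc k δ ≤ δ ^ (k + 1) / (k.factorial : ℝ) := by
  have hpi := Real.pi_gt_three
  have h1 : Real.pi ^ (1 / 4 : ℝ) * (1 / (64 * Real.pi ^ 4)) ^ (1 / 8 : ℝ) ≤ 1 := by
    have e1 : Real.pi ^ (1 / 4 : ℝ) = (Real.pi ^ 2) ^ (1 / 8 : ℝ) := by
      rw [← Real.rpow_natCast, ← Real.rpow_mul (by positivity)]
      norm_num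
    rw [e1, ← Real.mul_rpow (by positivity) (by positivity)]
    apply Real.rpow_le_one (by positivity) ?_ (by norm_num)
    rw [mul_one_div, div_le_one (by positivity)]
    have h3 : (1:ℝ) ≤ Real.pi ^ 2 := by nlinarith
    have h4 : Real.pi ^ 4 = Real.pi ^ 2 * Real.pi ^ 2 := by ring
    rw [h4]
    nlinarith [mul_nonneg (by linarith : (0:ℝ) ≤ Real.pi ^ 2) (by linarith : (0:ℝ) ≤ Real.pi ^ 2 - 1)]
  have h2 : 0 ≤ δ ^ (k + 1) / (k.factorial : ℝ) := by positivity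
  unfold Kc
  exact mul_le_of_le_one_left h2 h1

lemma split (k : ℕ) {δ d v t : ℝ} (ht : 0 < t) :
    Fi k δ v t = ((Kc k δ : ℝ) : ℂ) * (fc ((k : ℝ) - 3 / 4) (δ - d) t * Qt v d t) +
      Fi k δ v t * (((1 - Gam.g t * Gt t : ℝ)) : ℂ) := by
  have hg := (Gam.g_pos t).ne'
  have hQ : Qt v d t = ((M1.Lr t * Real.exp (t * (Real.pi / 4 - d)) : ℝ) : ℂ) * ee v t := by
    unfold Qt ee
    rw [M1.Lc_real]
    push_cast
    rw [mul_assoc ((M1.Lr t : ℝ) : ℂ), ← Complex.exp_add]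
    congr 2
    linear_combination (-(t:ℂ) * (Real.pi / 4 - d)) * Complex.I_sq
  have hf : fc ((k : ℝ) - 3 / 4) (δ - d) t =
      ((t ^ k * t ^ (1 / 4 : ℝ) * Real.exp (-((δ - d) * t)) : ℝ) : ℂ) := by
    unfold fc
    rw [fr_pos ht]
    congr 2
    rw [← Real.rpow_natCast, ← Real.rpow_add ht]
    congr 1
    ring
  rw [hQ, hf]
  have key : Kc k δ * (t ^ k * t ^ (1 / 4 : ℝ) * Real.exp (-((δ - d) * t)) *
      (M1.Lr t * Real.exp (t * (Real.pi / 4 - d)))) = og k δ t * Zz t * (Gam.g t * Gt t) := by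
    have e1 : Real.exp (-((δ - d) * t)) * Real.exp (t * (Real.pi / 4 - d)) =
        Real.exp (-(δ * t)) * Real.exp (Real.pi / 4 * t) := by
      rw [← Real.exp_add, ← Real.exp_add]
      congr 1
      ring
    have e2 : Zz t * Gam.g t = Real.pi ^ (1 / 4 : ℝ) * M1.Lr t := by
      unfold Zz
      rw [div_mul_cancel₀ _ hg]
    calc Kc k δ * (t ^ k * t ^ (1 / 4 : ℝ) * Real.exp (-((δ - d) * t)) *
        (M1.Lr t * Real.exp (t * (Real.pi / 4 - d))))
        = Kc k δ * t ^ k * t ^ (1 / 4 : ℝ) * M1.Lr t * (Real.exp (-((δ - d) * t)) *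
          Real.exp (t * (Real.pi / 4 - d))) := by ring
      _ = Kc k δ * t ^ k * t ^ (1 / 4 : ℝ) * M1.Lr t * (Real.exp (-(δ * t)) *
          Real.exp (Real.pi / 4 * t)) := by rw [e1]
      _ = og k δ t * (Real.pi ^ (1 / 4 : ℝ) * M1.Lr t) * Gt t := by
          unfold Kc og Gt; ring
      _ = og k δ t * (Zz t * Gam.g t) * Gt t := by rw [e2]
      _ = _ := by ring
  have key2 : ((Kc k δ : ℝ) : ℂ) * (((t ^ k * t ^ (1 / 4 : ℝ) * Real.exp (-((δ - d) * t)) : ℝ) : ℂ) *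
      (((M1.Lr t * Real.exp (t * (Real.pi / 4 - d)) : ℝ) : ℂ) * ee v t)) =
      Fi k δ v t * ((Gam.g t * Gt t : ℝ) : ℂ) := by
    calc ((Kc k δ : ℝ) : ℂ) * (((t ^ k * t ^ (1 / 4 : ℝ) * Real.exp (-((δ - d) * t)) : ℝ) : ℂ) *
      (((M1.Lr t * Real.exp (t * (Real.pi / 4 - d)) : ℝ) : ℂ) * ee v t))
        = ((Kc k δ * (t ^ k * t ^ (1 / 4 : ℝ) * Real.exp (-((δ - d) * t)) *
      (M1.Lr t * Real.exp (t * (Real.pi / 4 - d)))) : ℝ) : ℂ) * ee v t := by
          push_cast; ring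
      _ = _ := by
          rw [key]
          unfold Fi
          push_cast
          ring
  rw [key2]
  push_cast
  ring

/-- the two integrals of the density -/
lemma og_int_div (k : ℕ) {δ : ℝ} (hδ : 0 < δ) :
    IntegrableOn (fun t => og (k + 2) δ t * (4 * (1 + t) / t ^ 2)) (Ioi 0) ∧
    ∫ t in Ioi (0:ℝ), og (k + 2) δ t * (4 * (1 + t) / t ^ 2) =
      4 * (δ / (k + 2) + δ / (k + 2) * (δ / (k + 1))) := by
  have e : EqOn (fun t => og (k + 2) δ t * (4 * (1 + t) / t ^ 2))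
      (fun t => 4 * (δ / (k + 2) * og (k + 1) δ t + δ / (k + 2) * (δ / (k + 1)) * og k δ t))
      (Ioi 0) := by
    intro t ht
    have ht0 : (0:ℝ) < t := ht
    have h1 := og_div (k + 1) (δ := δ) ht0
    have h2 := og_div k (δ := δ) ht0
    push_cast at h1
    have h3 : ((k : ℝ) + 1 + 1) = k + 2 := by ring
    rw [h3] at h1
    simp only
    calc og (k + 2) δ t * (4 * (1 + t) / t ^ 2) =
        4 * (og (k + 1 + 1) δ t / t + (og (k + 1 + 1) δ t / t) / t) := by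
          field_simp
          ring
      _ = 4 * (δ / (k + 2) * og (k + 1) δ t + δ / (k + 2) * (og (k + 1) δ t / t)) := by
          rw [h1]; ring
      _ = _ := by rw [h2]; ring
  have i1 := (og_int (k + 1) hδ)
  have i2 := (og_int k hδ)
  have i3 : IntegrableOn (fun t => 4 * (δ / (k + 2) * og (k + 1) δ t +
      δ / (k + 2) * (δ / (k + 1)) * og k δ t)) (Ioi 0) :=
    ((i1.1.const_mul _).add (i2.1.const_mul _)).const_mul _
  constructor
  · exact i3.congr_fun e.symm measurableSet_Ioi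
  · rw [setIntegral_congr_fun measurableSet_Ioi e, integral_const_mul,
      integral_add (i1.1.const_mul _) (i2.1.const_mul _), integral_const_mul, integral_const_mul,
      i1.2, i2.2]
    ring

lemma Fi_bound (k : ℕ) {δ d v : ℝ} (hδ : 0 < δ) (hd : 0 < d) (hd1 : d ≤ 1 / 2) (hdδ : d < δ) :
    ‖∫ t in Ioi (0:ℝ), Fi (k + 2) δ v t‖ ≤
      4 * (δ / (k + 2) + δ / (k + 2) * (δ / (k + 1))) +
      δ ^ (k + 3) / ((k + 2).factorial : ℝ) * (Real.Gamma ((k : ℝ) + 13 / 4) *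
      ((C1 * Real.exp Real.pi * (Real.exp (v / 2) + Real.exp (-(v / 2))) / Real.sqrt d *
        (1 / (δ - d)) ^ ((k : ℝ) + 5 / 4) + 2000 / d ^ 3) * (1 / (2 * (δ - d))))) := by
  set s : ℝ := ((k + 2 : ℕ) : ℝ) - 3 / 4 with hs
  have hs0 : 0 ≤ s := by rw [hs]; push_cast; have : (0:ℝ) ≤ k := Nat.cast_nonneg k; linarith
  have hc : 0 < δ - d := by linarith
  have hmain := main_bound (v := v) hs0 hc hd hd1
  have e1 : s + 2 = (k : ℝ) + 13 / 4 := by rw [hs]; push_cast; ring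
  have e2 : s = (k : ℝ) + 5 / 4 := by rw [hs]; push_cast; ring
  rw [e1] at hmain
  have hFi := Fi_int (k + 2) δ v hδ
  -- the error integrand
  have hGc : ContinuousOn Gt (Ioi 0) := by
    unfold Gt
    refine continuousOn_const.mul (ContinuousOn.mul ?_ (by fun_prop))
    exact (Real.continuous_rpow_const (by norm_num)).continuousOn
  have herrm : AEStronglyMeasurable (fun t => Fi (k + 2) δ v t * (((1 - Gam.g t * Gt t : ℝ)) : ℂ))
      (volume.restrict (Ioi 0)) := by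
    refine ContinuousOn.aestronglyMeasurable ?_ measurableSet_Ioi
    refine (Fi_cont _ _ _).continuousOn.mul ?_
    exact Complex.continuous_ofReal.comp_continuousOn
      (continuousOn_const.sub (g_cont.continuousOn.mul hGc))
  have herrb : ∀ t ∈ Ioi (0:ℝ), ‖Fi (k + 2) δ v t * (((1 - Gam.g t * Gt t : ℝ)) : ℂ)‖ ≤
      og (k + 2) δ t * (4 * (1 + t) / t ^ 2) := by
    intro t ht
    have ht0 : (0:ℝ) < t := ht
    rw [norm_mul, norm_Fi _ _ _ hδ ht0.le, Complex.norm_real, Real.norm_eq_abs, abs_sub_comm]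
    have h1 := stirling ht0
    have h2 := abs_Zz_le ht0.le
    have h3 := og_nonneg (k + 2) hδ ht0.le
    calc og (k + 2) δ t * |Zz t| * |Gam.g t * Gt t - 1| ≤
        og (k + 2) δ t * (4 * (1 + t)) * (1 / t ^ 2) := by gcongr
      _ = _ := by ring
  have herr : IntegrableOn (fun t => Fi (k + 2) δ v t * (((1 - Gam.g t * Gt t : ℝ)) : ℂ)) (Ioi 0) := by
    refine Integrable.mono' (og_int_div k hδ).1 herrm ?_
    rw [ae_restrict_iff' measurableSet_Ioi]
    exact Eventually.of_forall herrb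
  have herrn : ‖∫ t in Ioi (0:ℝ), Fi (k + 2) δ v t * (((1 - Gam.g t * Gt t : ℝ)) : ℂ)‖ ≤
      4 * (δ / (k + 2) + δ / (k + 2) * (δ / (k + 1))) := by
    rw [← (og_int_div k hδ).2]
    refine norm_integral_le_of_norm_le (og_int_div k hδ).1 ?_
    rw [ae_restrict_iff' measurableSet_Ioi]
    exact Eventually.of_forall herrb
  -- the main term
  have hsp : ∀ t ∈ Ioi (0:ℝ), Fi (k + 2) δ v t - Fi (k + 2) δ v t * (((1 - Gam.g t * Gt t : ℝ)) : ℂ) =
      ((Kc (k + 2) δ : ℝ) : ℂ) * (fc s (δ - d) t * Qt v d t) := by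
    intro t ht
    have := split (k + 2) (δ := δ) (d := d) (v := v) (t := t) ht
    rw [← hs] at this
    rw [sub_eq_iff_eq_add]
    exact this
  have hmain2 : ∫ t in Ioi (0:ℝ), (Fi (k + 2) δ v t -
      Fi (k + 2) δ v t * (((1 - Gam.g t * Gt t : ℝ)) : ℂ)) =
      ((Kc (k + 2) δ : ℝ) : ℂ) * ∫ t : ℝ, fc s (δ - d) t * Qt v d t := by
    rw [setIntegral_congr_fun measurableSet_Ioi hsp, integral_const_mul]
    congr 1
    apply setIntegral_eq_integral_of_forall_compl_eq_zero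
    intro t ht
    unfold fc
    rw [fr_neg hs0 (not_lt.1 ht)]
    simp
  have htot : ∫ t in Ioi (0:ℝ), Fi (k + 2) δ v t =
      (∫ t in Ioi (0:ℝ), Fi (k + 2) δ v t * (((1 - Gam.g t * Gt t : ℝ)) : ℂ)) +
      ((Kc (k + 2) δ : ℝ) : ℂ) * ∫ t : ℝ, fc s (δ - d) t * Qt v d t := by
    rw [← hmain2, integral_sub hFi herr]
    ring
  rw [htot]
  refine (norm_add_le _ _).trans (add_le_add herrn ?_)
  rw [norm_mul, Complex.norm_real, Real.norm_eq_abs, abs_of_nonneg (Kc_nonneg _ hδ)]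
  have hK := Kc_le (k + 2) hδ
  rw [e2] at hmain ⊢
  exact mul_le_mul hK hmain (norm_nonneg _) (by positivity)

end

end Pool.Agent.TH914.LS
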