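import Pool.Agent.TH914.LS.OD

set_option autoImplicit false

/-!
# Hardy's function against a Gamma density, part 3: the bound
-/

namespace Pool.Agent.TH914.LS

open MeasureTheory Filter Topology Set Pool.Agent.Helper625

noncomputable section

lemma gam_le (k : ℕ) : Real.Gamma ((k : ℝ) + 13 / 4) ≤ ((k + 3).factorial : ℝ) := by
  have hk : (0:ℝ) ≤ k := Nat.cast_nonneg k
  have h1 : Real.Gamma (((k + 3 : ℕ) : ℝ) + 1) = ((k + 3).factorial : ℝ) :=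
    Real.Gamma_nat_eq_factorial (k + 3)
  rw [← h1]
  refine Real.Gamma_strictMonoOn_Ici.monotoneOn ?_ ?_ ?_
  · simp only [mem_Ici]; linarith
  · simp only [mem_Ici]; push_cast; linarith
  · push_cast; linarith

lemma rat_le (k : ℕ) (hk : 1 ≤ k) {T : ℝ} (hT : 0 < T) :
    (((k : ℝ) + 2) / T) ^ (k + 3) * ((1 / (((k : ℝ) + 1) / T)) ^ ((k : ℝ) + 5 / 4) *
      (1 / (((k : ℝ) + 1) / T))) ≤ Real.exp 2 * ((k : ℝ) + 2) * T ^ (-(3 / 4) : ℝ) := by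
  have hk0 : (1:ℝ) ≤ k := by exact_mod_cast hk
  set δ := ((k : ℝ) + 2) / T with hδ
  set c := ((k : ℝ) + 1) / T with hc
  have hδ0 : 0 < δ := by positivity
  have hc0 : 0 < c := by positivity
  have e1 : (1 / c) ^ ((k : ℝ) + 5 / 4) * (1 / c) = (1 / c) ^ ((k : ℝ) + 9 / 4) := by
    rw [show (k : ℝ) + 9 / 4 = ((k : ℝ) + 5 / 4) + 1 by ring,
      Real.rpow_add (by positivity) ((k : ℝ) + 5 / 4) 1, Real.rpow_one]
  have e2 : δ ^ (k + 3) = δ ^ (3 / 4 : ℝ) * δ ^ ((k : ℝ) + 9 / 4) := by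
    rw [← Real.rpow_add hδ0, ← Real.rpow_natCast]
    congr 1
    push_cast
    ring
  rw [e1, e2, mul_assoc, ← Real.mul_rpow hδ0.le (by positivity)]
  have e3 : δ * (1 / c) = 1 + 1 / ((k : ℝ) + 1) := by
    rw [hδ, hc]; field_simp; ring
  have h1 : δ * (1 / c) ≤ Real.exp (1 / ((k : ℝ) + 1)) := by
    rw [e3, add_comm]
    exact Real.add_one_le_exp _
  have h2 : (δ * (1 / c)) ^ ((k : ℝ) + 9 / 4) ≤ Real.exp 2 := by
    calc (δ * (1 / c)) ^ ((k : ℝ) + 9 / 4) ≤ (Real.exp (1 / ((k : ℝ) + 1))) ^ ((k : ℝ) + 9 / 4) :=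
          Real.rpow_le_rpow (by positivity) h1 (by positivity)
      _ = Real.exp (1 / ((k : ℝ) + 1) * ((k : ℝ) + 9 / 4)) := by rw [← Real.exp_mul]
      _ ≤ Real.exp 2 := by
          apply Real.exp_le_exp.2
          rw [one_div_mul_eq_div, div_le_iff₀ (by positivity)]
          linarith
  have h3 : δ ^ (3 / 4 : ℝ) ≤ ((k : ℝ) + 2) * T ^ (-(3 / 4) : ℝ) := by
    rw [hδ, Real.div_rpow (by positivity) hT.le, Real.rpow_neg hT.le, div_eq_mul_inv]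
    gcongr
    calc ((k : ℝ) + 2) ^ (3 / 4 : ℝ) ≤ ((k : ℝ) + 2) ^ (1 : ℝ) :=
          Real.rpow_le_rpow_of_exponent_le (by linarith) (by norm_num)
      _ = _ := Real.rpow_one _
  calc δ ^ (3 / 4 : ℝ) * (δ * (1 / c)) ^ ((k : ℝ) + 9 / 4) ≤
      (((k : ℝ) + 2) * T ^ (-(3 / 4) : ℝ)) * Real.exp 2 := by gcongr
    _ = _ := by ring

theorem core (k : ℕ) (hk : 3 ≤ k) {T : ℝ} (hT : 2 ≤ T) (hkT : (k : ℝ) + 2 ≤ T) (v : ℝ) :
    ‖∫ t in Ioi (0:ℝ), Fi (k + 2) (((k : ℝ) + 2) / T) v t‖ ≤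
      8 / T + C1 * Real.exp Real.pi * Real.exp 2 * ((k : ℝ) + 3) ^ 2 *
        (Real.exp (v / 2) + Real.exp (-(v / 2))) * T ^ (-(1 / 4) : ℝ) +
      2000 * ((k : ℝ) + 3) ^ 6 / T ^ 2 := by
  have hk0 : (3:ℝ) ≤ k := by exact_mod_cast hk
  have hT0 : 0 < T := by linarith
  have hC1 := C1_nonneg
  have hd1 : 1 / T ≤ 1 / 2 := one_div_le_one_div_of_le (by norm_num) hT
  have hc : ((k : ℝ) + 2) / T - 1 / T = ((k : ℝ) + 1) / T := by rw [← sub_div]; congr 1; ring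
  have h := Fi_bound k (δ := ((k : ℝ) + 2) / T) (d := 1 / T) (v := v) (by positivity)
    (by positivity) hd1 (by
      apply div_lt_div_of_pos_right _ hT0
      linarith)
  rw [hc] at h
  refine h.trans ?_
  have hA : 4 * (((k : ℝ) + 2) / T / (k + 2) + ((k : ℝ) + 2) / T / (k + 2) *
      (((k : ℝ) + 2) / T / (k + 1))) ≤ 8 / T := by
    have e1 : ((k : ℝ) + 2) / T / (k + 2) = 1 / T := by field_simp
    have e2 : ((k : ℝ) + 2) / T / (k + 1) ≤ 1 := by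
      rw [div_div, div_le_one (by positivity)]
      nlinarith
    rw [e1]
    have h1 : 1 / T * (((k : ℝ) + 2) / T / (k + 1)) ≤ 1 / T * 1 := by gcongr
    calc 4 * (1 / T + 1 / T * (((k : ℝ) + 2) / T / (k + 1))) ≤ 4 * (1 / T + 1 / T * 1) := by
          linarith
      _ = 8 / T := by ring
  set E := Real.exp (v / 2) + Real.exp (-(v / 2)) with hE
  have hE0 : 0 < E := by positivity
  set δ := ((k : ℝ) + 2) / T with hδ
  set c := ((k : ℝ) + 1) / T with hc'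
  have hδ0 : 0 < δ := by positivity
  have hc0 : 0 < c := by positivity
  have hsq : 1 / Real.sqrt (1 / T) = Real.sqrt T := by
    rw [Real.sqrt_div (by norm_num), Real.sqrt_one, one_div_one_div]
  have hfac : δ ^ (k + 3) / ((k + 2).factorial : ℝ) * ((k + 3).factorial : ℝ) =
      ((k : ℝ) + 3) * δ ^ (k + 3) := by
    rw [Nat.factorial_succ (k + 2)]
    push_cast
    field_simp
    ring
  have hB : δ ^ (k + 3) / ((k + 2).factorial : ℝ) * (Real.Gamma ((k : ℝ) + 13 / 4) *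
      ((C1 * Real.exp Real.pi * E / Real.sqrt (1 / T) * (1 / c) ^ ((k : ℝ) + 5 / 4) +
        2000 / (1 / T) ^ 3) * (1 / (2 * c)))) ≤
      ((k : ℝ) + 3) * δ ^ (k + 3) * ((C1 * Real.exp Real.pi * E / Real.sqrt (1 / T) *
        (1 / c) ^ ((k : ℝ) + 5 / 4) + 2000 / (1 / T) ^ 3) * (1 / (2 * c))) := by
    rw [← hfac, mul_assoc (δ ^ (k + 3) / ((k + 2).factorial : ℝ))]
    have hg := gam_le k
    gcongr
  have hC : ((k : ℝ) + 3) * δ ^ (k + 3) * ((C1 * Real.exp Real.pi * E / Real.sqrt (1 / T) *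
        (1 / c) ^ ((k : ℝ) + 5 / 4) + 2000 / (1 / T) ^ 3) * (1 / (2 * c))) =
      (C1 * Real.exp Real.pi * E * ((k : ℝ) + 3) / 2) * Real.sqrt T *
        (δ ^ (k + 3) * ((1 / c) ^ ((k : ℝ) + 5 / 4) * (1 / c))) +
      1000 * ((k : ℝ) + 3) * T ^ 3 * (δ ^ (k + 3) * (1 / c)) := by
    rw [← hsq]
    field_simp
    ring
  have hD : (C1 * Real.exp Real.pi * E * ((k : ℝ) + 3) / 2) * Real.sqrt T *
        (δ ^ (k + 3) * ((1 / c) ^ ((k : ℝ) + 5 / 4) * (1 / c))) ≤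
      C1 * Real.exp Real.pi * Real.exp 2 * ((k : ℝ) + 3) ^ 2 * E * T ^ (-(1 / 4) : ℝ) := by
    have h1 := rat_le k (by omega) hT0
    rw [← hδ, ← hc'] at h1
    have h2 : Real.sqrt T * T ^ (-(3 / 4) : ℝ) = T ^ (-(1 / 4) : ℝ) := by
      rw [Real.sqrt_eq_rpow, ← Real.rpow_add hT0]
      norm_num
    calc (C1 * Real.exp Real.pi * E * ((k : ℝ) + 3) / 2) * Real.sqrt T *
        (δ ^ (k + 3) * ((1 / c) ^ ((k : ℝ) + 5 / 4) * (1 / c)))
        ≤ (C1 * Real.exp Real.pi * E * ((k : ℝ) + 3) / 2) * Real.sqrt T *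
        (Real.exp 2 * ((k : ℝ) + 2) * T ^ (-(3 / 4) : ℝ)) := by gcongr
      _ = C1 * Real.exp Real.pi * Real.exp 2 * (((k : ℝ) + 3) * ((k : ℝ) + 2) / 2) * E *
          (Real.sqrt T * T ^ (-(3 / 4) : ℝ)) := by ring
      _ ≤ _ := by
          rw [h2]
          gcongr
          nlinarith
  have hF : 1000 * ((k : ℝ) + 3) * T ^ 3 * (δ ^ (k + 3) * (1 / c)) ≤
      2000 * ((k : ℝ) + 3) ^ 6 / T ^ 2 := by
    have h1 : δ * (1 / c) ≤ 2 := by
      rw [hδ, hc']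
      have : ((k : ℝ) + 2) / T * (1 / (((k : ℝ) + 1) / T)) = ((k : ℝ) + 2) / (k + 1) := by
        field_simp
      rw [this, div_le_iff₀ (by positivity)]
      linarith
    have hδ1 : δ ≤ 1 := by
      rw [hδ, div_le_one hT0]; exact hkT
    have h2 : δ ^ (k + 2) ≤ δ ^ 5 := pow_le_pow_of_le_one hδ0.le hδ1 (by omega)
    have h3 : δ ^ (k + 3) * (1 / c) ≤ δ ^ 5 * 2 := by
      calc δ ^ (k + 3) * (1 / c) = δ ^ (k + 2) * (δ * (1 / c)) := by ring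
        _ ≤ δ ^ 5 * 2 := by gcongr
    calc 1000 * ((k : ℝ) + 3) * T ^ 3 * (δ ^ (k + 3) * (1 / c)) ≤
        1000 * ((k : ℝ) + 3) * T ^ 3 * (δ ^ 5 * 2) := by gcongr
      _ = 2000 * (((k : ℝ) + 3) * ((k : ℝ) + 2) ^ 5) / T ^ 2 := by
          rw [hδ]; field_simp; ring
      _ ≤ 2000 * ((k : ℝ) + 3) ^ 6 / T ^ 2 := by
          have h4 : ((k : ℝ) + 3) * ((k : ℝ) + 2) ^ 5 ≤ ((k : ℝ) + 3) * ((k : ℝ) + 3) ^ 5 := by
            gcongr
            linarith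
          have h5 : ((k : ℝ) + 3) * ((k : ℝ) + 3) ^ 5 = ((k : ℝ) + 3) ^ 6 := by ring
          rw [h5] at h4
          gcongr
  rw [hC] at hB
  linarith

end

end Pool.Agent.TH914.LS
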